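import Pool.Agent.ATB.Stmts

/-!
# CIN: `c` times a generator with `c` in the span of `B`
-/

set_option autoImplicit false

namespace Pool.Agent.ATB.H6

open scoped TensorProduct
open Pool.Agent.ATB

theorem finrank_sup_sing {K : Type} [Field K] {n : ℕ} (H : Submodule K (Fin n → K)) (a : Fin n → K)
    (ha : a ∉ H) : Module.finrank K H + 1 =
      Module.finrank K (H ⊔ Submodule.span K {a} : Submodule K (Fin n → K)) := by
  have ha0 : a ≠ 0 := by
    rintro rfl
    exact ha H.zero_mem
  have h1 := Submodule.finrank_sup_add_finrank_inf_eq H (Submodule.span K {a})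
  have h2 : H ⊓ Submodule.span K {a} = ⊥ :=
    disjoint_iff.mp ((Submodule.disjoint_span_singleton' ha0).mpr ha)
  rw [h2, finrank_bot, finrank_span_singleton ha0, add_zero] at h1
  exact h1.symm

/-- CIN -/
theorem cin (hlpw : LPWStmt) : CINStmt := by
  intro K _ n k Z B D c i ω hBD hcard hω hc
  classical
  obtain ⟨f, -, hf⟩ := Submodule.mem_span_finset.mp
    (show c ∈ Submodule.span K ((B.toFinset : Finset (Fin n → K)) : Set (Fin n → K)) by
      have h1 : ((B.toFinset : Finset (Fin n → K)) : Set (Fin n → K)) = {v | v ∈ B} := by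
        ext v
        simp
      rw [h1]
      exact hc)
  have hlin : lin c = ∑ a ∈ B.toFinset, f a • (lin a : MvPolynomial (Fin n) K) := by
    rw [← hf, map_sum]
    exact Finset.sum_congr rfl fun a _ => map_smul _ _ _
  have hterm : pm (lin c) (prodm D ⊗ₜ[K] ω) =
      ∑ a ∈ B.toFinset, f a • (prodm (a ::ₘ D) ⊗ₜ[K] ω) := by
    rw [pm_tmul, hlin, Finset.sum_mul, TensorProduct.sum_tmul]
    refine Finset.sum_congr rfl fun a _ => ?_
    rw [prodm_cons, smul_mul_assoc, TensorProduct.smul_tmul']
  rw [hterm]
  refine Submodule.sum_mem _ fun a ha => ?_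
  have haB : a ∈ B := Multiset.mem_toFinset.mp ha
  obtain ⟨B', hB'⟩ := Multiset.exists_cons_of_mem haB
  have hZ : B' + (a ::ₘ D) = Z := by
    rw [← hBD, hB', Multiset.add_cons, Multiset.cons_add]
  have hcard' : (B'.card : ℤ) = k + i := by
    rw [hB', Multiset.card_cons] at hcard
    push_cast at hcard
    omega
  have hspB : sp B = sp B' ⊔ Submodule.span K {a} := by rw [hB', sp_cons]
  by_cases hfa : f a = 0
  · rw [hfa, zero_smul]
    exact Submodule.zero_mem _
  refine Submodule.smul_mem _ _ ?_
  by_cases haB' : a ∈ sp B'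
  · have h1 : sp B = sp B' := by
      rw [hspB, sup_eq_left, Submodule.span_singleton_le_iff_mem]
      exact haB'
    rw [h1] at hω
    exact Submodule.mem_sup_left (Submodule.subset_span ⟨B', a ::ₘ D, ω, hω, hZ, hcard', rfl⟩)
  · -- `a` is independent of the others
    have hrest : c - f a • a ∈ sp B' := by
      have h2 : c - f a • a = ∑ b ∈ B.toFinset.erase a, f b • b := by
        rw [← hf, ← Finset.add_sum_erase _ _ ha, add_sub_cancel_left]
      rw [h2]
      refine Submodule.sum_mem _ fun b hb => Submodule.smul_mem _ _ (mem_sp ?_)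
      have h3 := Finset.mem_erase.mp hb
      have h4 : b ∈ B := Multiset.mem_toFinset.mp h3.2
      rw [hB', Multiset.mem_cons] at h4
      exact h4.resolve_left h3.1
    have hcB' : c ∉ sp B' := by
      intro h
      apply haB'
      have h5 : f a • a ∈ sp B' := by
        have := Submodule.sub_mem _ h hrest
        rwa [sub_sub_cancel] at this
      have h6 := Submodule.smul_mem _ (f a)⁻¹ h5
      rwa [smul_smul, inv_mul_cancel₀ hfa, one_smul] at h6
    have hspc : sp B = sp B' ⊔ Submodule.span K {c} := by
      rw [hspB]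
      apply le_antisymm
      · refine sup_le le_sup_left ?_
        rw [Submodule.span_singleton_le_iff_mem]
        have h7 : a = (f a)⁻¹ • c - (f a)⁻¹ • (c - f a • a) := by
          rw [← smul_sub, sub_sub_cancel, smul_smul, inv_mul_cancel₀ hfa, one_smul]
        rw [h7]
        exact Submodule.sub_mem _
          (Submodule.smul_mem _ _ (Submodule.mem_sup_right (Submodule.mem_span_singleton_self c)))
          (Submodule.smul_mem _ _ (Submodule.mem_sup_left hrest))
      · refine sup_le le_sup_left ?_
        rw [Submodule.span_singleton_le_iff_mem]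
        have h8 : c = (c - f a • a) + f a • a := by rw [sub_add_cancel]
        rw [h8]
        exact Submodule.add_mem _ (Submodule.mem_sup_left hrest)
          (Submodule.smul_mem _ _ (Submodule.mem_sup_right (Submodule.mem_span_singleton_self a)))
    have hω' := hω
    rw [hspc] at hω'
    obtain ⟨ω₀, h₀, ω₁, h₁, rfl⟩ := (hlpw K n).2.2.1 (sp B') c i ω hω'
    rw [TensorProduct.tmul_add]
    refine Submodule.add_mem _ ?_ ?_
    · exact Submodule.mem_sup_left (Submodule.subset_span ⟨B', a ::ₘ D, ω₀, h₀, hZ, hcard', rfl⟩)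
    · refine Submodule.mem_sup_right ?_
      refine Submodule.mem_iSup_of_mem (sp B') (Submodule.mem_iSup_of_mem ⟨hcB', ?_⟩ ?_)
      · rw [hspB]
        exact finrank_sup_sing _ _ haB'
      · refine ⟨prodm (a ::ₘ D) ⊗ₜ[K] ω₁, Submodule.subset_span
          ⟨B', a ::ₘ D, ω₁, h₁, hZ, rfl, by omega, rfl⟩, ?_⟩
        rw [wl_tmul]

end Pool.Agent.ATB.H6
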